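import Pool.Agent.Work.Monodromy_helper48.BP3
import Pool.Agent.Work.Monodromy.EBD

/-!
# Existence of Bernstein polynomials, part 4: the theorem
-/

set_option autoImplicit false

namespace Pool.Agent.Mono
namespace BP

open MvPolynomial Filter

section rt

variable {K σ : Type} [Field K]

theorem fd_rtd [Fintype σ] (N : ℕ) : FiniteDimensional K (restrictTotalDegree σ K N) := by
  classical
  let g : (σ → Fin (N + 1)) → MvPolynomial σ K := fun s =>
    monomial (Finsupp.equivFunOnFinite.symm fun i => (s i : ℕ)) 1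
  have h1 : restrictTotalDegree σ K N ≤ Submodule.span K (Set.range g) := by
    intro p hp
    rw [mem_restrictTotalDegree] at hp
    rw [← support_sum_monomial_coeff p]
    refine Submodule.sum_mem _ fun m hm => ?_
    have h2 : ∀ i, m i < N + 1 := by
      intro i
      have h3 := (le_totalDegree hm).trans hp
      rw [Finsupp.sum_fintype _ _ (fun _ => rfl)] at h3
      have h4 : m i ≤ ∑ i, m i := Finset.single_le_sum (fun _ _ => Nat.zero_le _) (Finset.mem_univ i)
      omega
    have h3 : monomial m (coeff m p) = coeff m p • g (fun i => ⟨m i, h2 i⟩) := by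
      simp only [g, smul_monomial, smul_eq_mul, mul_one]
      congr 1
      ext i
      simp
    rw [h3]
    exact Submodule.smul_mem _ _ (Submodule.subset_span ⟨_, rfl⟩)
  have h3 : FiniteDimensional K (Submodule.span K (Set.range g)) :=
    FiniteDimensional.span_of_finite K (Set.finite_range g)
  exact Submodule.finiteDimensional_of_le h1

variable {V ι : Type} [AddCommGroup V] [Module K V] [DecidableEq ι]

/-- polynomials of bounded degree applied to `u` -/
noncomputable def bd (w : WMod K V ι) (u : V) (N : ℕ) : Submodule K V :=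
  (restrictTotalDegree ι K N).map
    ((LinearMap.applyₗ u : Module.End K V →ₗ[K] V) ∘ₗ w.pX.toLinearMap)

theorem mem_bd {w : WMod K V ι} {u v : V} {N : ℕ} :
    v ∈ bd w u N ↔ ∃ p : MvPolynomial ι K, p.totalDegree ≤ N ∧ w.pX p u = v := by
  unfold bd
  rw [Submodule.mem_map]
  constructor
  · rintro ⟨p, hp, rfl⟩
    exact ⟨p, (mem_restrictTotalDegree _ _ _).1 hp, rfl⟩
  · rintro ⟨p, hp, rfl⟩
    exact ⟨p, (mem_restrictTotalDegree _ _ _).2 hp, rfl⟩

theorem fd_bd [Fintype ι] (w : WMod K V ι) (u : V) (N : ℕ) : FiniteDimensional K (bd w u N) := by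
  have := fd_rtd (K := K) (σ := ι) N
  unfold bd
  infer_instance

theorem finrank_bd [Fintype ι] (w : WMod K V ι) (u : V) (N : ℕ) :
    Module.finrank K (bd w u N) ≤ (N + 1) ^ Fintype.card ι := by
  have := fd_rtd (K := K) (σ := ι) N
  exact (Submodule.finrank_map_le _ _).trans (finrank_le_card N)

end rt

theorem totalDegree_map_le {R S σ : Type} [CommSemiring R] [CommSemiring S] (g : R →+* S)
    (p : MvPolynomial σ R) : (map g p).totalDegree ≤ p.totalDegree :=
  Finset.sup_mono (support_map_subset g p)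

section

variable {ι : Type} [DecidableEq ι] (f : MvPolynomial ι ℂ)

/-- the class of `f^{s-v}` -/
noncomputable def fw (v : ℕ) : VG ι := cl (fun k => f ^ (k - v))

/-- `f` over `ℂ(s)` -/
noncomputable def fK : MvPolynomial ι KK := map cK f

omit [DecidableEq ι] in
theorem fK_deg : (fK f).totalDegree ≤ f.totalDegree := by
  unfold fK
  exact totalDegree_map_le _ _

theorem fw_succ (v : ℕ) : (wG (ι := ι)).pX (fK f) (fw f (v + 1)) = fw f v := by
  unfold fK fw
  rw [pX_map_cl, cl_eq]
  filter_upwards [eventually_ge_atTop (v + 1)] with k hk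
  rw [← pow_succ']
  congr 1
  omega

theorem D_fw (j : ι) (v : ℕ) : (wG (ι := ι)).D' j (fw f v) =
    (algebraMap _ KK (Polynomial.X - Polynomial.C (v : ℂ))) •
      (wG (ι := ι)).pX (map cK (pderiv j f)) (fw f (v + 1)) := by
  unfold fw
  rw [pX_map_cl, D_cl, poly_smul, cl_eq]
  filter_upwards [eventually_ge_atTop (v + 1)] with k hk
  obtain ⟨m, rfl⟩ := Nat.exists_eq_add_of_le hk
  rw [show v + 1 + m - v = m + 1 by omega, show v + 1 + m - (v + 1) = m by omega,
    Derivation.leibniz_pow, Nat.add_sub_cancel, smul_eq_mul, nsmul_eq_mul, Polynomial.eval_sub,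
    Polynomial.eval_X, Polynomial.eval_C, MvPolynomial.smul_eq_C_mul]
  have h : ((v + 1 + m : ℕ) : ℂ) - v = ((m + 1 : ℕ) : ℂ) := by push_cast; ring
  rw [h, map_natCast]
  ring

theorem filt_bd : Filt (wG (ι := ι)) (fun v => bd wG (fw f v) ((f.totalDegree + 1) * v)) := by
  obtain ⟨d, hd⟩ : ∃ d, d = f.totalDegree := ⟨_, rfl⟩
  have hdK : (fK f).totalDegree ≤ d := hd ▸ fK_deg f
  rw [← hd]
  constructor
  · intro v x hx
    obtain ⟨p, hp, rfl⟩ := mem_bd.1 hx
    refine mem_bd.2 ⟨p * fK f, ?_, ?_⟩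
    · refine (totalDegree_mul _ _).trans ?_
      rw [mul_add, mul_one]
      omega
    · rw [map_mul, Module.End.mul_apply, fw_succ]
  · intro j v x hx
    obtain ⟨p, hp, rfl⟩ := mem_bd.1 hx
    refine mem_bd.2 ⟨X j * (p * fK f), ?_, ?_⟩
    · refine (totalDegree_mul _ _).trans ?_
      have h1 := totalDegree_mul p (fK f)
      rw [totalDegree_X, mul_add, mul_one]
      omega
    · rw [map_mul, map_mul, Module.End.mul_apply, Module.End.mul_apply, fw_succ, WMod.pX_X]
  · intro j v x hx
    obtain ⟨p, hp, rfl⟩ := mem_bd.1 hx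
    have h1 := LinearMap.congr_fun ((wG (ι := ι)).D_pX j p) (fw f v)
    rw [Module.End.mul_apply, LinearMap.add_apply, Module.End.mul_apply, D_fw] at h1
    change (wG (ι := ι)).D' j ((wG (ι := ι)).pX p (fw f v)) ∈ bd wG (fw f (v + 1)) _
    rw [h1]
    refine Submodule.add_mem _ ?_ ?_
    · rw [map_smul]
      refine Submodule.smul_mem _ _ ?_
      refine mem_bd.2 ⟨p * map cK (pderiv j f), ?_, ?_⟩
      · refine (totalDegree_mul _ _).trans ?_
        have h2 : (map cK (pderiv j f)).totalDegree ≤ d := by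
          refine (totalDegree_map_le _ _).trans (totalDegree_pderiv_le _ _ _ ?_)
          omega
        rw [mul_add, mul_one]
        omega
      · rw [map_mul, Module.End.mul_apply]
    · refine mem_bd.2 ⟨pderiv j p * fK f, ?_, ?_⟩
      · refine (totalDegree_mul _ _).trans ?_
        have h2 : (pderiv j p).totalDegree ≤ (d + 1) * v :=
          totalDegree_pderiv_le _ _ _ (by omega)
        rw [mul_add, mul_one]
        omega
      · rw [map_mul, Module.End.mul_apply, fw_succ]

/-- the class of `f^{s+j}` -/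
noncomputable def fv (j : ℕ) : VG ι := cl (fun k => f ^ (k + j))

theorem fv_mem (j : ℕ) : ∃ u, fv f j ∈ bd wG (fw f u) ((f.totalDegree + 1) * u) := by
  refine ⟨f.totalDegree * j, mem_bd.2 ⟨map cK (f ^ (j + f.totalDegree * j)), ?_, ?_⟩⟩
  · refine (totalDegree_map_le _ _).trans ((totalDegree_pow _ _).trans ?_)
    exact le_of_eq (by ring)
  · unfold fw fv
    rw [pX_map_cl, cl_eq]
    filter_upwards [eventually_ge_atTop (f.totalDegree * j)] with k hk
    rw [← pow_add]
    congr 1
    omega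

theorem fv_step (j : ℕ) : fv f (j + 1) ∈ gn wG (fv f j) := by
  refine mem_gn.2 ⟨rename Sum.inl (fK f) * rename Sum.inr 1, ?_⟩
  rw [WMod.Op_mul, map_one, mul_one]
  unfold fv fK
  rw [pX_map_cl]
  congr 1
  funext k
  rw [← pow_succ']
  rfl

theorem exists_op [Fintype ι] : ∃ (j : ℕ) (b : Polynomial ℂ), b ≠ 0 ∧ ∃ A ∈ PolyFam ι,
    ∀ᶠ k : ℕ in atTop, A (k : ℤ) (f ^ (k + (j + 1))) = C (b.eval (k : ℂ)) * f ^ (k + j) := by
  obtain ⟨j, hj⟩ := exists_stable (wG (ι := ι))
    (fun v => bd wG (fw f v) ((f.totalDegree + 1) * v)) (filt_bd f) (fun i => fd_bd _ _ _)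
    (f.totalDegree + 1) (fun i => finrank_bd _ _ _) (fv f) (fv_mem f) (fv_step f)
  obtain ⟨a, ha⟩ := mem_gn.1 hj
  obtain ⟨b, hb, A, hA, h1⟩ := rep_Op a
  refine ⟨j, b, hb, A, hA, ?_⟩
  have h2 := LinearMap.congr_fun h1 (fv f (j + 1))
  rw [LinearMap.smul_apply, ha] at h2
  unfold fv at h2
  rw [poly_smul, op_cl, cl_eq] at h2
  filter_upwards [h2] with k hk
  rw [← hk, MvPolynomial.smul_eq_C_mul]

end

end BP

open MvPolynomial Filter

/-- existence of Bernstein polynomials, for large `k` -/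
theorem exists_evBernstein {ι : Type} [Finite ι] (f : MvPolynomial ι ℂ) :
    ∃ b : Polynomial ℂ, b ≠ 0 ∧ IsEvBernstein f b := by
  classical
  have := Fintype.ofFinite ι
  obtain ⟨j, b, hb, A, hA, h⟩ := BP.exists_op f
  obtain ⟨P, hP⟩ := exists_of_polyFam _ (polyFam_shift (-(j : ℤ)) A hA)
  refine ⟨b.comp (Polynomial.X + Polynomial.C (-(j : ℂ))), ?_, P, ?_⟩
  · exact Polynomial.comp_X_add_C_ne_zero_iff.2 hb
  · obtain ⟨N, hN⟩ := eventually_atTop.1 h
    refine eventually_atTop.2 ⟨N + j, fun k hk => ?_⟩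
    obtain ⟨m, rfl⟩ : ∃ m, k = m + j := ⟨k - j, by omega⟩
    rw [hP, Polynomial.eval_comp]
    have h1 := hN m (by omega)
    have h2 : (((m + j : ℕ) : ℤ) + -(j : ℤ)) = (m : ℤ) := by push_cast; ring
    have h3 : (Polynomial.X + Polynomial.C (-(j : ℂ))).eval ((m + j : ℕ) : ℂ) = (m : ℂ) := by
      rw [Polynomial.eval_add, Polynomial.eval_X, Polynomial.eval_C]
      push_cast
      ring
    rw [h2, h3]
    exact h1

/-- existence of Bernstein polynomials -/
theorem exists_bernstein {ι : Type} [Finite ι] (f : MvPolynomial ι ℂ) :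
    ∃ b : Polynomial ℂ, b ≠ 0 ∧ IsBernstein f b := by
  obtain ⟨b, hb, P, hP⟩ := exists_evBernstein f
  obtain ⟨N, hN⟩ := eventually_atTop.1 hP
  obtain ⟨q, hq⟩ : ∃ q : Polynomial ℂ,
      q = ∏ i ∈ Finset.range N, (Polynomial.X - Polynomial.C (i : ℂ)) := ⟨_, rfl⟩
  have hq0 : q ≠ 0 := by
    rw [hq]
    exact Finset.prod_ne_zero_iff.2 fun i _ => Polynomial.X_sub_C_ne_zero _
  refine ⟨q * b, mul_ne_zero hq0 hb, q.map (algebraMap ℂ (Weyl ι)) * P, fun k => ?_⟩
  rw [EBDAux.wact_cmul, Polynomial.eval_mul, C_mul, mul_assoc]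
  by_cases hk : N ≤ k
  · rw [hN k hk]
  · have h0 : q.eval (k : ℂ) = 0 := by
      rw [hq, Polynomial.eval_prod]
      refine Finset.prod_eq_zero (Finset.mem_range.2 (not_le.1 hk)) ?_
      rw [Polynomial.eval_sub, Polynomial.eval_X, Polynomial.eval_C, sub_self]
    rw [h0, C_0, zero_mul, zero_mul]

end Pool.Agent.Mono
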