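import Mathlib

/-!
# Existence of Bernstein polynomials, part 1: modules over the Weyl algebra
-/

set_option autoImplicit false

namespace Pool.Agent.Mono
namespace BP

open MvPolynomial

section lift

variable {K V ι : Type} [Field K] [AddCommGroup V] [Module K V]

/-- the action of commuting operators -/
noncomputable def liftC (X' : ι → Module.End K V) (h : ∀ i j, X' i * X' j = X' j * X' i) :
    MvPolynomial ι K →ₐ[K] Module.End K V :=
  letI : CommRing (Algebra.adjoin K (Set.range X')) :=
    Algebra.adjoinCommRingOfComm K (by rintro _ ⟨i, rfl⟩ _ ⟨j, rfl⟩; exact h i j)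
  (Algebra.adjoin K (Set.range X')).val.comp
    (aeval fun i => (⟨X' i, Algebra.subset_adjoin ⟨i, rfl⟩⟩ : Algebra.adjoin K (Set.range X')))

theorem liftC_X (X' : ι → Module.End K V) (h : ∀ i j, X' i * X' j = X' j * X' i) (i : ι) :
    liftC X' h (X i) = X' i := by
  unfold liftC
  simp

theorem liftC_C (X' : ι → Module.End K V) (h : ∀ i j, X' i * X' j = X' j * X' i) (c : K) :
    liftC X' h (C c) = algebraMap K (Module.End K V) c := by
  rw [← algebraMap_eq]
  exact AlgHom.commutes _ _

end lift

variable (K V ι : Type) [Field K] [AddCommGroup V] [Module K V] [DecidableEq ι]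

/-- a module over the Weyl algebra -/
structure WMod where
  X' : ι → Module.End K V
  D' : ι → Module.End K V
  XX : ∀ i j, X' i * X' j = X' j * X' i
  DD : ∀ i j, D' i * D' j = D' j * D' i
  DX : ∀ i j, D' i * X' j = X' j * D' i + if i = j then 1 else 0

variable {K V ι}

namespace WMod

variable (w : WMod K V ι)

/-- action of `K[x]` -/
noncomputable def pX : MvPolynomial ι K →ₐ[K] Module.End K V := liftC w.X' w.XX

/-- action of `K[∂]` -/
noncomputable def pD : MvPolynomial ι K →ₐ[K] Module.End K V := liftC w.D' w.DD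

theorem pX_X (i : ι) : w.pX (X i) = w.X' i := liftC_X _ _ i

theorem pD_X (i : ι) : w.pD (X i) = w.D' i := liftC_X _ _ i

theorem D_pX (j : ι) (p : MvPolynomial ι K) :
    w.D' j * w.pX p = w.pX p * w.D' j + w.pX (pderiv j p) := by
  induction p using MvPolynomial.induction_on with
  | C a =>
    rw [pderiv_C, map_zero, add_zero, pX, liftC_C]
    exact (Algebra.commutes a (w.D' j)).symm
  | add p q hp hq =>
    rw [map_add, mul_add, hp, hq, map_add, map_add]
    noncomm_ring
  | mul_X p i hp =>
    rw [map_mul, ← mul_assoc, hp, add_mul, mul_assoc (w.pX p) (w.D' j), pX_X, w.DX,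
      Derivation.leibniz, pderiv_X, map_add]
    simp only [smul_eq_mul, map_mul, pX_X]
    have h1 : w.pX ((Pi.single j 1 : ι → MvPolynomial ι K) i) =
        if j = i then (1 : Module.End K V) else 0 := by
      by_cases hji : j = i
      · subst hji
        simp
      · rw [Pi.single_eq_of_ne (Ne.symm hji), map_zero, if_neg hji]
    have h2 : w.X' i * w.pX (pderiv j p) = w.pX (pderiv j p) * w.X' i := by
      rw [← pX_X, ← map_mul, ← map_mul, mul_comm]
    rw [h1, h2]
    noncomm_ring

theorem pD_X' (j : ι) (q : MvPolynomial ι K) :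
    w.pD q * w.X' j = w.X' j * w.pD q + w.pD (pderiv j q) := by
  induction q using MvPolynomial.induction_on with
  | C a =>
    rw [pderiv_C, map_zero, add_zero, pD, liftC_C]
    exact Algebra.commutes a (w.X' j)
  | add p q hp hq =>
    rw [map_add, add_mul, hp, hq, map_add, map_add]
    noncomm_ring
  | mul_X p i hp =>
    rw [map_mul, mul_assoc, pD_X, w.DX, mul_add, ← mul_assoc, hp, Derivation.leibniz, pderiv_X,
      map_add]
    simp only [smul_eq_mul, map_mul, pD_X]
    have h1 : w.pD ((Pi.single j 1 : ι → MvPolynomial ι K) i) =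
        if i = j then (1 : Module.End K V) else 0 := by
      by_cases hji : i = j
      · subst hji
        simp
      · rw [Pi.single_eq_of_ne hji, map_zero, if_neg hji]
    have h2 : w.D' i * w.pD (pderiv j p) = w.pD (pderiv j p) * w.D' i := by
      rw [← pD_X, ← map_mul, ← map_mul, mul_comm]
    rw [h1, h2]
    noncomm_ring

/-- the operator of a normally ordered symbol -/
noncomputable def Op : MvPolynomial (ι ⊕ ι) K →ₗ[K] Module.End K V :=
  (basisMonomials (ι ⊕ ι) K).constr K fun m =>
    w.pX (monomial (Finsupp.sumFinsuppEquivProdFinsupp m).1 1) *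
      w.pD (monomial (Finsupp.sumFinsuppEquivProdFinsupp m).2 1)

theorem Op_monomial (m : ι ⊕ ι →₀ ℕ) (c : K) : w.Op (monomial m c) =
    c • (w.pX (monomial (Finsupp.sumFinsuppEquivProdFinsupp m).1 1) *
      w.pD (monomial (Finsupp.sumFinsuppEquivProdFinsupp m).2 1)) := by
  have h1 : monomial m c = c • (basisMonomials (ι ⊕ ι) K) m := by
    rw [coe_basisMonomials, smul_monomial, smul_eq_mul, mul_one]
  rw [h1, map_smul, Op, Module.Basis.constr_basis]

theorem Op_mul (p q : MvPolynomial ι K) :
    w.Op (rename Sum.inl p * rename Sum.inr q) = w.pX p * w.pD q := by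
  induction p using MvPolynomial.induction_on' with
  | add p p' hp hp' => rw [map_add, add_mul, map_add, hp, hp', map_add, add_mul]
  | monomial s a =>
    induction q using MvPolynomial.induction_on' with
    | add q q' hq hq' => rw [map_add, mul_add, map_add, hq, hq', map_add, mul_add]
    | monomial t b =>
      rw [rename_monomial, rename_monomial, monomial_mul, Op_monomial]
      have h1 : (Finsupp.sumFinsuppEquivProdFinsupp
          (Finsupp.mapDomain Sum.inl s + Finsupp.mapDomain Sum.inr t : ι ⊕ ι →₀ ℕ)).1 = s := by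
        ext i
        rw [Finsupp.fst_sumFinsuppEquivProdFinsupp, Finsupp.add_apply,
          Finsupp.mapDomain_apply Sum.inl_injective, Finsupp.mapDomain_of_notMem_range, add_zero]
        simp
      have h2 : (Finsupp.sumFinsuppEquivProdFinsupp
          (Finsupp.mapDomain Sum.inl s + Finsupp.mapDomain Sum.inr t : ι ⊕ ι →₀ ℕ)).2 = t := by
        ext i
        rw [Finsupp.snd_sumFinsuppEquivProdFinsupp, Finsupp.add_apply,
          Finsupp.mapDomain_apply Sum.inr_injective, Finsupp.mapDomain_of_notMem_range, zero_add]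
        simp
      rw [h1, h2]
      have h3 : monomial s a = a • monomial s (1 : K) := by
        rw [smul_monomial, smul_eq_mul, mul_one]
      have h4 : monomial t b = b • monomial t (1 : K) := by
        rw [smul_monomial, smul_eq_mul, mul_one]
      rw [h3, h4, map_smul, map_smul, smul_mul_smul_comm]

omit [DecidableEq ι] in
theorem mono_eq (m : ι ⊕ ι →₀ ℕ) (c : K) : (monomial m c : MvPolynomial (ι ⊕ ι) K) =
    rename Sum.inl (monomial (Finsupp.sumFinsuppEquivProdFinsupp m).1 c) *
      rename Sum.inr (monomial (Finsupp.sumFinsuppEquivProdFinsupp m).2 1) := by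
  rw [rename_monomial, rename_monomial, monomial_mul, mul_one]
  have h : m = Finsupp.mapDomain Sum.inl (Finsupp.sumFinsuppEquivProdFinsupp m).1 +
      Finsupp.mapDomain Sum.inr (Finsupp.sumFinsuppEquivProdFinsupp m).2 := ?_
  · rw [← h]
  refine Finsupp.ext fun i => ?_
  rcases i with i | i
  · rw [Finsupp.add_apply, Finsupp.mapDomain_apply Sum.inl_injective,
      Finsupp.mapDomain_of_notMem_range, add_zero, Finsupp.fst_sumFinsuppEquivProdFinsupp]
    simp
  · rw [Finsupp.add_apply, Finsupp.mapDomain_apply Sum.inr_injective,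
      Finsupp.mapDomain_of_notMem_range, zero_add, Finsupp.snd_sumFinsuppEquivProdFinsupp]
    simp

omit [DecidableEq ι] in
theorem ind {P : MvPolynomial (ι ⊕ ι) K → Prop}
    (h1 : ∀ p q : MvPolynomial ι K, P (rename Sum.inl p * rename Sum.inr q))
    (h2 : ∀ a b, P a → P b → P (a + b)) (a : MvPolynomial (ι ⊕ ι) K) : P a := by
  induction a using MvPolynomial.induction_on' with
  | add a b ha hb => exact h2 a b ha hb
  | monomial m c =>
    rw [mono_eq]
    exact h1 _ _

omit [DecidableEq ι] in
theorem pderiv_inl (j : ι) (p q : MvPolynomial ι K) :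
    pderiv (Sum.inl j) (rename Sum.inl p * rename Sum.inr q : MvPolynomial (ι ⊕ ι) K) =
      rename Sum.inl (pderiv j p) * rename Sum.inr q := by
  classical
  have h1 : pderiv (Sum.inl j) (rename Sum.inr q : MvPolynomial (ι ⊕ ι) K) = 0 := by
    induction q using MvPolynomial.induction_on with
    | C a => simp
    | add p q hp hq => rw [map_add, map_add, hp, hq, add_zero]
    | mul_X p i hp => simp [Derivation.leibniz, hp, pderiv_X]
  have h2 : pderiv (Sum.inl j) (rename Sum.inl p : MvPolynomial (ι ⊕ ι) K) =
      rename Sum.inl (pderiv j p) := by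
    induction p using MvPolynomial.induction_on with
    | C a => simp
    | add p q hp hq => rw [map_add, map_add, hp, hq, map_add, map_add]
    | mul_X p i hp =>
      have h3 : (Pi.single (Sum.inl j) 1 : ι ⊕ ι → MvPolynomial (ι ⊕ ι) K) (Sum.inl i) =
          rename Sum.inl ((Pi.single j 1 : ι → MvPolynomial ι K) i) := by
        by_cases hji : i = j
        · subst hji
          simp
        · rw [Pi.single_eq_of_ne hji, Pi.single_eq_of_ne (by simpa using hji), map_zero]
      rw [map_mul, Derivation.leibniz, hp, Derivation.leibniz, rename_X, pderiv_X, pderiv_X, h3]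
      simp
  rw [Derivation.leibniz, h1, h2, smul_zero, zero_add, smul_eq_mul, mul_comm]

omit [DecidableEq ι] in
theorem pderiv_inr (j : ι) (p q : MvPolynomial ι K) :
    pderiv (Sum.inr j) (rename Sum.inl p * rename Sum.inr q : MvPolynomial (ι ⊕ ι) K) =
      rename Sum.inl p * rename Sum.inr (pderiv j q) := by
  classical
  have h1 : pderiv (Sum.inr j) (rename Sum.inl p : MvPolynomial (ι ⊕ ι) K) = 0 := by
    induction p using MvPolynomial.induction_on with
    | C a => simp
    | add p q hp hq => rw [map_add, map_add, hp, hq, add_zero]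
    | mul_X p i hp => simp [Derivation.leibniz, hp, pderiv_X]
  have h2 : pderiv (Sum.inr j) (rename Sum.inr q : MvPolynomial (ι ⊕ ι) K) =
      rename Sum.inr (pderiv j q) := by
    induction q using MvPolynomial.induction_on with
    | C a => simp
    | add p q hp hq => rw [map_add, map_add, hp, hq, map_add, map_add]
    | mul_X p i hp =>
      have h3 : (Pi.single (Sum.inr j) 1 : ι ⊕ ι → MvPolynomial (ι ⊕ ι) K) (Sum.inr i) =
          rename Sum.inr ((Pi.single j 1 : ι → MvPolynomial ι K) i) := by
        by_cases hji : i = j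
        · subst hji
          simp
        · rw [Pi.single_eq_of_ne hji, Pi.single_eq_of_ne (by simpa using hji), map_zero]
      rw [map_mul, Derivation.leibniz, hp, Derivation.leibniz, rename_X, pderiv_X, pderiv_X, h3]
      simp
  rw [Derivation.leibniz, h1, h2, smul_zero, add_zero, smul_eq_mul]

theorem comm1 (j : ι) (a : MvPolynomial (ι ⊕ ι) K) :
    w.D' j * w.Op a = w.Op a * w.D' j + w.Op (pderiv (Sum.inl j) a) := by
  induction a using ind with
  | h1 p q =>
    rw [pderiv_inl, Op_mul, Op_mul, ← mul_assoc, D_pX, add_mul, mul_assoc, mul_assoc, ← pD_X,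
      ← map_mul, ← map_mul, mul_comm (X j) q]
  | h2 a b ha hb =>
    rw [map_add, mul_add, ha, hb, map_add, map_add]
    noncomm_ring

theorem comm2 (j : ι) (a : MvPolynomial (ι ⊕ ι) K) :
    w.Op a * w.X' j = w.X' j * w.Op a + w.Op (pderiv (Sum.inr j) a) := by
  induction a using ind with
  | h1 p q =>
    rw [pderiv_inr, Op_mul, Op_mul, mul_assoc, pD_X', mul_add, ← mul_assoc, ← mul_assoc, ← pX_X,
      ← map_mul, ← map_mul, mul_comm (X j) p]
  | h2 a b ha hb =>
    rw [map_add, add_mul, ha, hb, map_add, map_add]
    noncomm_ring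

theorem X_Op (j : ι) (a : MvPolynomial (ι ⊕ ι) K) :
    w.X' j * w.Op a = w.Op (X (Sum.inl j) * a) := by
  induction a using ind with
  | h1 p q =>
    have h : X (Sum.inl j) * (rename Sum.inl p * rename Sum.inr q) =
        (rename Sum.inl (X j * p) * rename Sum.inr q : MvPolynomial (ι ⊕ ι) K) := by
      rw [map_mul, rename_X, mul_assoc]
    rw [h, Op_mul, Op_mul, map_mul, pX_X, mul_assoc]
  | h2 a b ha hb => rw [map_add, mul_add, ha, hb, mul_add, map_add]

theorem Op_D (j : ι) (a : MvPolynomial (ι ⊕ ι) K) :
    w.Op a * w.D' j = w.Op (a * X (Sum.inr j)) := by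
  induction a using ind with
  | h1 p q =>
    have h : (rename Sum.inl p * rename Sum.inr q) * X (Sum.inr j) =
        (rename Sum.inl p * rename Sum.inr (q * X j) : MvPolynomial (ι ⊕ ι) K) := by
      rw [map_mul, rename_X, mul_assoc]
    rw [h, Op_mul, Op_mul, map_mul, pD_X, mul_assoc]
  | h2 a b ha hb => rw [map_add, add_mul, ha, hb, add_mul, map_add]

theorem Op_C (c : K) (v : V) : w.Op (C c) v = c • v := by
  have h : (C c : MvPolynomial (ι ⊕ ι) K) = rename Sum.inl (C c) * rename Sum.inr 1 := by simp
  rw [h, Op_mul, map_one, mul_one, pX, liftC_C]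
  rfl

end WMod

end BP
end Pool.Agent.Mono
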