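import Pool.Agent.Work.Monodromy_helper48.BP1

/-!
# Existence of Bernstein polynomials, part 2: Bernstein's inequality and finite length
-/

set_option autoImplicit false

namespace Pool.Agent.Mono
namespace BP

open MvPolynomial

section poly

variable {K σ : Type} [Field K]

theorem totalDegree_pderiv_le (k : σ) (a : MvPolynomial σ K) (i : ℕ) (h : a.totalDegree ≤ i + 1) :
    (pderiv k a).totalDegree ≤ i := by
  rw [totalDegree, Finset.sup_le_iff]
  intro m hm
  rw [mem_support_iff, coeff_pderiv] at hm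
  have h1 : coeff (m + Finsupp.single k 1) a ≠ 0 := left_ne_zero_of_mul hm
  have h2 := le_totalDegree (mem_support_iff.2 h1)
  rw [Finsupp.sum_add_index' (fun _ => rfl) (fun _ _ _ => rfl), Finsupp.sum_single_index rfl] at h2
  omega

theorem eq_C_of_pderiv [CharZero K] (a : MvPolynomial σ K) (h : ∀ k, pderiv k a = 0) :
    a = C (coeff 0 a) := by
  classical
  ext m
  rw [coeff_C]
  by_cases hm : 0 = m
  · rw [if_pos hm, hm]
  · rw [if_neg hm]
    obtain ⟨k, hk⟩ : ∃ k, m k ≠ 0 := by
      by_contra hcon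
      push Not at hcon
      exact hm (Finsupp.ext hcon).symm
    have h1 := congrArg (coeff (m - Finsupp.single k 1)) (h k)
    rw [coeff_pderiv, coeff_zero, Finsupp.sub_add_single_one_cancel hk] at h1
    rcases mul_eq_zero.1 h1 with h2 | h2
    · exact h2
    · exfalso
      have h3 : (((m - Finsupp.single k 1 : σ →₀ ℕ) k + 1 : ℕ) : K) = 0 := by
        push_cast
        exact h2
      exact Nat.cast_ne_zero.2 (Nat.succ_ne_zero _) h3

theorem card_le_finrank [Fintype σ] (t N : ℕ) (hN : Fintype.card σ * t ≤ N) :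
    (t + 1) ^ (Fintype.card σ) ≤ Module.finrank K (restrictTotalDegree σ K N) := by
  classical
  let g : (σ → Fin (t + 1)) → (σ →₀ ℕ) := fun s => Finsupp.equivFunOnFinite.symm fun i => (s i : ℕ)
  have hg : Function.Injective g := by
    intro s s' h
    funext i
    apply Fin.ext
    have := DFunLike.congr_fun h i
    simpa [g] using this
  have hmem : ∀ s, monomial (g s) (1 : K) ∈ restrictTotalDegree σ K N := by
    intro s
    rw [mem_restrictTotalDegree]
    refine (totalDegree_monomial_le _ _).trans ?_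
    rw [Finsupp.sum_fintype _ _ (fun _ => rfl)]
    refine le_trans ?_ hN
    calc ∑ i, g s i ≤ ∑ _i : σ, t := Finset.sum_le_sum fun i _ => by
          simp only [g, Finsupp.equivFunOnFinite_symm_apply_apply]
          exact Nat.lt_succ_iff.1 (s i).2
      _ = Fintype.card σ * t := by simp
  let F : (σ → Fin (t + 1)) → restrictTotalDegree σ K N := fun s => ⟨monomial (g s) 1, hmem s⟩
  have hF : LinearIndependent K F := by
    apply LinearIndependent.of_comp (restrictTotalDegree σ K N).subtype
    exact (basisMonomials σ K).linearIndependent.comp g hg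
  have h := hF.fintype_card_le_finrank
  rwa [Fintype.card_fun, Fintype.card_fin] at h

theorem finrank_le_card [Fintype σ] (N : ℕ) :
    Module.finrank K (restrictTotalDegree σ K N) ≤ (N + 1) ^ (Fintype.card σ) := by
  classical
  let g : (σ → Fin (N + 1)) → MvPolynomial σ K := fun s =>
    monomial (Finsupp.equivFunOnFinite.symm fun i => (s i : ℕ)) 1
  have h1 : restrictTotalDegree σ K N ≤ Submodule.span K (Set.range g) := by
    intro p hp
    rw [mem_restrictTotalDegree] at hp
    rw [← support_sum_monomial_coeff p]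
    refine Submodule.sum_mem _ fun m hm => ?_
    have h2 : ∀ i, m i < N + 1 := by
      intro i
      have h3 := (le_totalDegree hm).trans hp
      rw [Finsupp.sum_fintype _ _ (fun _ => rfl)] at h3
      have h4 : m i ≤ ∑ i, m i := Finset.single_le_sum (fun _ _ => Nat.zero_le _) (Finset.mem_univ i)
      omega
    have h3 : monomial m (coeff m p) = coeff m p • g (fun i => ⟨m i, h2 i⟩) := by
      simp only [g, smul_monomial, smul_eq_mul, mul_one]
      congr 1
      ext i
      simp
    rw [h3]
    exact Submodule.smul_mem _ _ (Submodule.subset_span ⟨_, rfl⟩)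
  have h2 := finrank_range_le_card (R := K) (b := g)
  rw [Fintype.card_fun, Fintype.card_fin] at h2
  have h3 : FiniteDimensional K (Submodule.span K (Set.range g)) :=
    FiniteDimensional.span_of_finite K (Set.finite_range g)
  exact (Submodule.finrank_mono h1).trans h2

end poly

variable {K V ι : Type} [Field K] [AddCommGroup V] [Module K V] [DecidableEq ι]

/-- a filtration -/
structure Filt (w : WMod K V ι) (Γ : ℕ → Submodule K V) : Prop where
  mono : ∀ i, Γ i ≤ Γ (i + 1)
  X' : ∀ j i, ∀ v ∈ Γ i, w.X' j v ∈ Γ (i + 1)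
  D' : ∀ j i, ∀ v ∈ Γ i, w.D' j v ∈ Γ (i + 1)

namespace Filt

variable {w : WMod K V ι} {Γ : ℕ → Submodule K V}

theorem le (h : Filt w Γ) {i j : ℕ} (hij : i ≤ j) : Γ i ≤ Γ j := by
  induction j, hij using Nat.le_induction with
  | base => exact le_rfl
  | succ j _ ih => exact ih.trans (h.mono j)

theorem mono_mem (h : Filt w Γ) : ∀ (d : ℕ) (m : ι ⊕ ι →₀ ℕ), (m.sum fun _ e => e) ≤ d →
    ∀ (c : K) (i : ℕ) (v : V), v ∈ Γ i → w.Op (monomial m c) v ∈ Γ (i + d) := by
  intro d
  induction d with
  | zero =>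
    intro m hm c i v hv
    have h0 : m = 0 := by
      ext k
      rw [Finsupp.coe_zero, Pi.zero_apply]
      by_contra hk
      have h1 : m k ≤ m.sum fun _ e => e :=
        Finset.single_le_sum (f := fun k => m k) (fun _ _ => Nat.zero_le _)
          (Finsupp.mem_support_iff.2 hk)
      omega
    subst h0
    have h1 : (monomial 0 c : MvPolynomial (ι ⊕ ι) K) = C c := rfl
    rw [h1, WMod.Op_C, add_zero]
    exact (Γ i).smul_mem c hv
  | succ d ih =>
    intro m hm c i v hv
    by_cases h0 : m = 0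
    · subst h0
      have h1 : (monomial 0 c : MvPolynomial (ι ⊕ ι) K) = C c := rfl
      rw [h1, WMod.Op_C]
      exact h.le (by omega) ((Γ i).smul_mem c hv)
    · obtain ⟨k, hk⟩ : ∃ k, m k ≠ 0 := by
        by_contra hcon
        push Not at hcon
        exact h0 (Finsupp.ext hcon)
      obtain ⟨m', hm'⟩ : ∃ m', m' = m - Finsupp.single k 1 := ⟨_, rfl⟩
      have h1 : m = m' + Finsupp.single k 1 := by
        rw [hm', Finsupp.sub_add_single_one_cancel hk]
      have h2 : (m'.sum fun _ e => e) ≤ d := by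
        rw [h1, Finsupp.sum_add_index' (fun _ => rfl) (fun _ _ _ => rfl),
          Finsupp.sum_single_index rfl] at hm
        omega
      have h3 : (monomial m c : MvPolynomial (ι ⊕ ι) K) = monomial m' c * X k := by
        rw [h1, X, monomial_mul, mul_one]
      rw [h3]
      rcases k with j | j
      · rw [mul_comm, ← WMod.X_Op, Module.End.mul_apply, ← add_assoc]
        exact h.X' j _ _ (ih m' h2 c i v hv)
      · rw [← WMod.Op_D, Module.End.mul_apply]
        have h4 := ih m' h2 c (i + 1) _ (h.D' j _ _ hv)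
        rwa [add_assoc, add_comm 1 d] at h4

theorem op (h : Filt w Γ) (a : MvPolynomial (ι ⊕ ι) K) (d : ℕ) (hd : a.totalDegree ≤ d) (i : ℕ)
    (v : V) (hv : v ∈ Γ i) : w.Op a v ∈ Γ (i + d) := by
  rw [← support_sum_monomial_coeff a, map_sum, LinearMap.sum_apply]
  exact Submodule.sum_mem _ fun m hm =>
    h.mono_mem d m ((le_totalDegree hm).trans hd) _ i v hv

/-- Bernstein's injectivity -/
theorem bern [CharZero K] (h : Filt w Γ) (h0 : ∃ v ∈ Γ 0, v ≠ 0) : ∀ (i : ℕ)
    (a : MvPolynomial (ι ⊕ ι) K), a.totalDegree ≤ i → (∀ v ∈ Γ i, w.Op a v = 0) → a = 0 := by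
  obtain ⟨v0, hv0, hne⟩ := h0
  have hC : ∀ (i : ℕ) (c : K), (∀ v ∈ Γ i, w.Op (C c) v = 0) → c = 0 := by
    intro i c hc
    have h1 := hc v0 (h.le (Nat.zero_le i) hv0)
    rw [WMod.Op_C] at h1
    exact (smul_eq_zero.1 h1).resolve_right hne
  intro i
  induction i with
  | zero =>
    intro a ha hz
    have h1 := totalDegree_eq_zero_iff_eq_C.1 (Nat.le_zero.1 ha)
    rw [h1] at hz ⊢
    rw [hC 0 _ hz, map_zero]
  | succ i ih =>
    intro a ha hz
    have h1 : ∀ k, pderiv k a = 0 := by
      intro k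
      apply ih _ (totalDegree_pderiv_le k a i ha)
      intro v hv
      rcases k with j | j
      · have h2 := LinearMap.congr_fun (w.comm1 j a) v
        rw [Module.End.mul_apply, LinearMap.add_apply, Module.End.mul_apply,
          hz v (h.mono i hv), hz _ (h.D' j i v hv), map_zero, zero_add] at h2
        exact h2.symm
      · have h2 := LinearMap.congr_fun (w.comm2 j a) v
        rw [Module.End.mul_apply, LinearMap.add_apply, Module.End.mul_apply,
          hz v (h.mono i hv), hz _ (h.X' j i v hv), map_zero, zero_add] at h2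
        exact h2.symm
    have h2 := eq_C_of_pderiv a h1
    rw [h2] at hz ⊢
    rw [hC _ _ hz, map_zero]

theorem dim_ineq [CharZero K] [Fintype ι] (h : Filt w Γ) (h0 : ∃ v ∈ Γ 0, v ≠ 0)
    (hfd : ∀ i, FiniteDimensional K (Γ i)) (i : ℕ) :
    Module.finrank K (restrictTotalDegree (ι ⊕ ι) K i) ≤
      Module.finrank K (Γ i) * Module.finrank K (Γ (i + i)) := by
  have := hfd i
  have := hfd (i + i)
  let L : restrictTotalDegree (ι ⊕ ι) K i →ₗ[K] (Γ i →ₗ[K] Γ (i + i)) :=
    { toFun := fun a => (w.Op (a : MvPolynomial (ι ⊕ ι) K)).restrict fun v hv =>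
        h.op _ i ((mem_restrictTotalDegree _ _ _).1 a.2) i v hv
      map_add' := by
        intro a b
        ext v
        change w.Op ((a : MvPolynomial (ι ⊕ ι) K) + b) v = w.Op a v + w.Op b v
        rw [map_add]
        rfl
      map_smul' := by
        intro c a
        ext v
        change w.Op (c • (a : MvPolynomial (ι ⊕ ι) K)) v = c • w.Op a v
        rw [map_smul]
        rfl }
  have hL : Function.Injective L := by
    rw [← LinearMap.ker_eq_bot, LinearMap.ker_eq_bot']
    intro a ha
    apply Subtype.ext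
    apply h.bern h0 i _ ((mem_restrictTotalDegree _ _ _).1 a.2)
    intro v hv
    have h1 := congrArg (fun M : Γ i →ₗ[K] Γ (i + i) => ((M ⟨v, hv⟩ : Γ (i + i)) : V)) ha
    exact h1
  have h1 := LinearMap.finrank_le_finrank_of_injective hL
  rwa [Module.finrank_linearMap] at h1

end Filt

/-- the quotient module -/
noncomputable def qmod (w : WMod K V ι) (N : Submodule K V) (hX : ∀ j, ∀ v ∈ N, w.X' j v ∈ N)
    (hD : ∀ j, ∀ v ∈ N, w.D' j v ∈ N) : WMod K (V ⧸ N) ι where
  X' j := N.mapQ N (w.X' j) (hX j)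
  D' j := N.mapQ N (w.D' j) (hD j)
  XX i j := by
    apply Submodule.linearMap_qext
    ext v
    have := LinearMap.congr_fun (w.XX i j) v
    simp only [LinearMap.comp_apply, Module.End.mul_apply, Submodule.mkQ_apply,
      Submodule.mapQ_apply] at this ⊢
    rw [this]
  DD i j := by
    apply Submodule.linearMap_qext
    ext v
    have := LinearMap.congr_fun (w.DD i j) v
    simp only [LinearMap.comp_apply, Module.End.mul_apply, Submodule.mkQ_apply,
      Submodule.mapQ_apply] at this ⊢
    rw [this]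
  DX i j := by
    apply Submodule.linearMap_qext
    ext v
    have := LinearMap.congr_fun (w.DX i j) v
    by_cases hij : i = j
    · simp only [LinearMap.comp_apply, Module.End.mul_apply, Submodule.mkQ_apply,
        Submodule.mapQ_apply, LinearMap.add_apply, if_pos hij, Module.End.one_apply] at this ⊢
      rw [this]
      rfl
    · simp only [LinearMap.comp_apply, Module.End.mul_apply, Submodule.mkQ_apply,
        Submodule.mapQ_apply, if_neg hij, add_zero] at this ⊢
      rw [this]

/-- the submodule generated by `u` -/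
noncomputable def gn (w : WMod K V ι) (u : V) : Submodule K V :=
  LinearMap.range ((LinearMap.applyₗ u : Module.End K V →ₗ[K] V) ∘ₗ w.Op)

theorem mem_gn {w : WMod K V ι} {u v : V} : v ∈ gn w u ↔ ∃ a, w.Op a u = v := by
  unfold gn
  rw [LinearMap.mem_range]
  rfl

theorem gn_X {w : WMod K V ι} {u v : V} (j : ι) (hv : v ∈ gn w u) : w.X' j v ∈ gn w u := by
  obtain ⟨a, rfl⟩ := mem_gn.1 hv
  rw [mem_gn]
  exact ⟨X (Sum.inl j) * a, by rw [← w.X_Op, Module.End.mul_apply]⟩

theorem gn_D {w : WMod K V ι} {u v : V} (j : ι) (hv : v ∈ gn w u) : w.D' j v ∈ gn w u := by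
  obtain ⟨a, rfl⟩ := mem_gn.1 hv
  rw [mem_gn]
  refine ⟨a * X (Sum.inr j) + pderiv (Sum.inl j) a, ?_⟩
  rw [map_add, ← w.Op_D, ← w.comm1, Module.End.mul_apply]

theorem self_mem_gn (w : WMod K V ι) (u : V) : u ∈ gn w u := by
  rw [mem_gn]
  refine ⟨C 1, ?_⟩
  rw [w.Op_C, one_smul]

theorem gn_le {w : WMod K V ι} {u v : V} (hv : v ∈ gn w u) : gn w v ≤ gn w u := by
  have key : ∀ (d : ℕ) (m : ι ⊕ ι →₀ ℕ), (m.sum fun _ e => e) ≤ d → ∀ (c : K) (v : V),
      v ∈ gn w u → w.Op (monomial m c) v ∈ gn w u := by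
    intro d m hm c v hv
    have h : Filt w (fun _ => gn w u) :=
      { mono := fun _ => le_rfl
        X' := fun j _ v hv => gn_X j hv
        D' := fun j _ v hv => gn_D j hv }
    exact h.mono_mem d m hm c 0 v hv
  intro x hx
  obtain ⟨a, rfl⟩ := mem_gn.1 hx
  rw [← support_sum_monomial_coeff a, map_sum, LinearMap.sum_apply]
  exact Submodule.sum_mem _ fun m _ => key _ m le_rfl _ v hv

theorem finrank_map_mkQ (S N : Submodule K V) [FiniteDimensional K S] :
    Module.finrank K (S.map N.mkQ) + Module.finrank K (S ⊓ N : Submodule K V) =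
      Module.finrank K S := by
  have h := LinearMap.finrank_range_add_finrank_ker (N.mkQ.domRestrict S)
  rw [LinearMap.range_domRestrict, LinearMap.ker_domRestrict, Submodule.ker_mkQ] at h
  rw [← h]
  congr 1
  rw [← Submodule.finrank_map_subtype_eq S (N.comap S.subtype), Submodule.map_comap_subtype]

/-- finite length: a descending chain of cyclic submodules becomes stationary -/
theorem exists_stable [CharZero K] [Fintype ι] (w : WMod K V ι) (M : ℕ → Submodule K V)
    (hM : Filt w M) (hfd : ∀ i, FiniteDimensional K (M i)) (c : ℕ)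
    (hdim : ∀ i, Module.finrank K (M i) ≤ (c * i + 1) ^ Fintype.card ι) (v : ℕ → V)
    (hv : ∀ j, ∃ u, v j ∈ M u) (hstep : ∀ j, v (j + 1) ∈ gn w (v j)) :
    ∃ j, v j ∈ gn w (v (j + 1)) := by
  classical
  by_contra hcon
  push Not at hcon
  obtain ⟨n, hn⟩ : ∃ n, n = Fintype.card ι := ⟨_, rfl⟩
  obtain ⟨C', hC'⟩ : ∃ C', C' = (c + 1) * (4 * n + 1) := ⟨_, rfl⟩
  obtain ⟨r, hr⟩ : ∃ r, r = C' ^ (2 * n) + 1 := ⟨_, rfl⟩
  choose u hu using hv
  obtain ⟨v0, hv0⟩ : ∃ v0, v0 = ∑ j ∈ Finset.range (r + 1), u j := ⟨_, rfl⟩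
  have hvM : ∀ j < r, v j ∈ M v0 := by
    intro j hj
    apply hM.le _ (hu j)
    rw [hv0]
    exact Finset.single_le_sum (f := u) (fun _ _ => Nat.zero_le _)
      (Finset.mem_range.2 (by omega))
  obtain ⟨t, ht⟩ : ∃ t, t = v0 + 1 := ⟨_, rfl⟩
  obtain ⟨i, hi⟩ : ∃ i, i = 2 * n * t := ⟨_, rfl⟩
  let F : ℕ → ℕ → ℕ := fun j a => Module.finrank K (M (v0 + a) ⊓ gn w (v j) : Submodule K V)
  let g : ℕ → ℕ → ℕ := fun j a => Module.finrank K
    ((M (v0 + a) ⊓ gn w (v j)).map (gn w (v (j + 1))).mkQ)
  have hfd' : ∀ (a : ℕ) (N : Submodule K V), FiniteDimensional K (M a ⊓ N : Submodule K V) := by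
    intro a N
    have := hfd a
    exact Submodule.finiteDimensional_inf_left _ _
  have hgF : ∀ j a, g j a + F (j + 1) a = F j a := by
    intro j a
    have := hfd' (v0 + a) (gn w (v j))
    have h1 := finrank_map_mkQ (M (v0 + a) ⊓ gn w (v j)) (gn w (v (j + 1)))
    rw [inf_assoc, inf_eq_right.2 (gn_le (hstep j))] at h1
    exact h1
  have hF : ∀ j a, F j a ≤ (c * (v0 + a) + 1) ^ n := by
    intro j a
    have := hfd (v0 + a)
    rw [hn]
    exact (Submodule.finrank_mono inf_le_left).trans (hdim _)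
  have hsum : ∀ r, ∑ j ∈ Finset.range r, g j i + F r i = F 0 i := by
    intro r
    induction r with
    | zero => simp
    | succ r ih => rw [Finset.sum_range_succ, add_assoc, hgF, ih]
  have hbern : ∀ j < r, (t + 1) ^ (2 * n) ≤ g j i * g j (i + i) := by
    intro j hj
    have hfilt : Filt (qmod w (gn w (v (j + 1))) (fun j _ hv => gn_X j hv)
        (fun j _ hv => gn_D j hv))
        (fun a => (M (v0 + a) ⊓ gn w (v j)).map (gn w (v (j + 1))).mkQ) := by
      constructor
      · intro a
        exact Submodule.map_mono (inf_le_inf_right _ (hM.mono _))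
      · rintro k a _ ⟨m, hm, rfl⟩
        exact ⟨w.X' k m, ⟨hM.X' k _ _ hm.1, gn_X k hm.2⟩, rfl⟩
      · rintro k a _ ⟨m, hm, rfl⟩
        exact ⟨w.D' k m, ⟨hM.D' k _ _ hm.1, gn_D k hm.2⟩, rfl⟩
    have h1 := hfilt.dim_ineq ⟨(gn w (v (j + 1))).mkQ (v j),
      ⟨v j, ⟨hvM j hj, self_mem_gn w _⟩, rfl⟩, fun h0 => hcon j (by
        rwa [Submodule.mkQ_apply, Submodule.Quotient.mk_eq_zero] at h0)⟩ (fun a => by
        have := hfd' (v0 + a) (gn w (v j))
        exact inferInstance) i
    refine le_trans ?_ h1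
    have h2 := card_le_finrank (K := K) (σ := ι ⊕ ι) t i (by
      rw [Fintype.card_sum, ← hn, hi]
      exact le_of_eq (by ring))
    rwa [Fintype.card_sum, ← hn, ← two_mul] at h2
  have hpos : 0 < t ^ n := by
    apply Nat.pow_pos
    omega
  have hCt : ∀ a, a ≤ i + i → c * (v0 + a) + 1 ≤ C' * t := by
    intro a ha
    have h1 : c * (v0 + a) ≤ c * (t + 4 * n * t) := by
      apply Nat.mul_le_mul_left
      have : i + i = 4 * n * t := by rw [hi]; ring
      omega
    have h2 : C' * t = c * (t + 4 * n * t) + (t + 4 * n * t) := by rw [hC']; ring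
    omega
  have hlow : ∀ j < r, t ^ n ≤ C' ^ n * g j i := by
    intro j hj
    have h1 := hbern j hj
    have h2 : g j (i + i) ≤ (C' * t) ^ n := by
      have h3 := hgF j (i + i)
      have h4 := hF j (i + i)
      have h5 := Nat.pow_le_pow_left (hCt (i + i) le_rfl) n
      omega
    have h3 : t ^ n * t ^ n ≤ (C' ^ n * g j i) * t ^ n := by
      calc t ^ n * t ^ n = t ^ (2 * n) := by ring
        _ ≤ (t + 1) ^ (2 * n) := Nat.pow_le_pow_left (Nat.le_succ t) _
        _ ≤ g j i * g j (i + i) := h1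
        _ ≤ g j i * (C' * t) ^ n := Nat.mul_le_mul_left _ h2
        _ = (C' ^ n * g j i) * t ^ n := by ring
    exact Nat.le_of_mul_le_mul_right h3 hpos
  have htot : r * t ^ n ≤ C' ^ (2 * n) * t ^ n := by
    calc r * t ^ n = ∑ _j ∈ Finset.range r, t ^ n := by simp
      _ ≤ ∑ j ∈ Finset.range r, C' ^ n * g j i :=
          Finset.sum_le_sum fun j hj => hlow j (Finset.mem_range.1 hj)
      _ = C' ^ n * ∑ j ∈ Finset.range r, g j i := by rw [Finset.mul_sum]
      _ ≤ C' ^ n * (C' * t) ^ n := by
          apply Nat.mul_le_mul_left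
          have h1 := hsum r
          have h2 := hF 0 i
          have h3 := Nat.pow_le_pow_left (hCt i (by omega)) n
          omega
      _ = C' ^ (2 * n) * t ^ n := by ring
  have hfin := Nat.le_of_mul_le_mul_right htot hpos
  omega

end BP
end Pool.Agent.Mono
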