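import Pool.Agent.Work.Monodromy_helper48.BP2
import Pool.Agent.Work.Monodromy.Units

/-!
# Existence of Bernstein polynomials, part 3: germs at infinity
-/

set_option autoImplicit false

namespace Pool.Agent.Mono
namespace BP

open MvPolynomial Filter

/-- the field `ℂ(s)` -/
abbrev KK : Type := FractionRing (Polynomial ℂ)

noncomputable def psi0 : Polynomial ℂ →+* Germ (atTop : Filter ℕ) ℂ :=
  (Germ.coeRingHom atTop).comp (RingHom.pi fun k : ℕ => Polynomial.evalRingHom (k : ℂ))

theorem psi0_apply (p : Polynomial ℂ) :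
    psi0 p = ((fun k : ℕ => p.eval (k : ℂ) : ℕ → ℂ) : Germ (atTop : Filter ℕ) ℂ) := rfl

theorem ev_ne {p : Polynomial ℂ} (hp : p ≠ 0) : ∀ᶠ k : ℕ in atTop, p.eval (k : ℂ) ≠ 0 := by
  rw [← Nat.cofinite_eq_atTop, Filter.eventually_cofinite]
  have h1 : (p.roots.toFinset : Set ℂ).Finite := Finset.finite_toSet _
  refine (h1.preimage (f := fun k : ℕ => (k : ℂ)) (Nat.cast_injective.injOn)).subset ?_
  intro k hk
  simp only [not_not] at hk
  simp only [Set.mem_preimage, Finset.mem_coe, Multiset.mem_toFinset]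
  exact (Polynomial.mem_roots hp).2 hk

theorem psi0_unit (p : nonZeroDivisors (Polynomial ℂ)) : IsUnit (psi0 p) := by
  have hp : (p : Polynomial ℂ) ≠ 0 := nonZeroDivisors.ne_zero p.2
  rw [isUnit_iff_exists_inv]
  refine ⟨((fun k : ℕ => ((p : Polynomial ℂ).eval (k : ℂ))⁻¹ : ℕ → ℂ) :
    Germ (atTop : Filter ℕ) ℂ), ?_⟩
  rw [psi0_apply, ← Germ.coe_mul, ← Germ.coe_one, Germ.coe_eq]
  filter_upwards [ev_ne hp] with k hk
  exact mul_inv_cancel₀ hk

noncomputable def psi : KK →+* Germ (atTop : Filter ℕ) ℂ := IsLocalization.lift psi0_unit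

theorem psi_algebraMap (p : Polynomial ℂ) : psi (algebraMap _ KK p) = psi0 p :=
  IsLocalization.lift_eq _ _

/-- germs at infinity of functions `ℕ → ℂ[x]` -/
def VG (ι : Type) : Type := Germ (atTop : Filter ℕ) (MvPolynomial ι ℂ)

section

variable {ι : Type}

noncomputable instance : AddCommGroup (VG ι) :=
  inferInstanceAs (AddCommGroup (Germ (atTop : Filter ℕ) (MvPolynomial ι ℂ)))

noncomputable instance : Module (Germ (atTop : Filter ℕ) ℂ) (VG ι) :=
  inferInstanceAs (Module (Germ (atTop : Filter ℕ) ℂ)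
    (Germ (atTop : Filter ℕ) (MvPolynomial ι ℂ)))

noncomputable instance : Module KK (VG ι) := Module.compHom (VG ι) psi

/-- the germ of a function -/
def cl (g : ℕ → MvPolynomial ι ℂ) : VG ι := (g : Germ (atTop : Filter ℕ) (MvPolynomial ι ℂ))

theorem cl_eq {g h : ℕ → MvPolynomial ι ℂ} : cl g = cl h ↔ ∀ᶠ k in atTop, g k = h k :=
  Germ.coe_eq

theorem cl_ind {P : VG ι → Prop} (h : ∀ g, P (cl g)) (v : VG ι) : P v :=
  Germ.inductionOn v h

theorem cl_add (g h : ℕ → MvPolynomial ι ℂ) : cl g + cl h = cl (fun k => g k + h k) := rfl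

theorem smul_cl (c : KK) : ∃ c' : ℕ → ℂ, ∀ g : ℕ → MvPolynomial ι ℂ,
    c • cl g = cl (fun k => c' k • g k) := by
  obtain ⟨c', hc'⟩ : ∃ c' : ℕ → ℂ, psi c = (c' : Germ (atTop : Filter ℕ) ℂ) := by
    induction psi c using Germ.inductionOn with
    | h c' => exact ⟨c', rfl⟩
  refine ⟨c', fun g => ?_⟩
  change psi c • cl g = _
  rw [hc']
  rfl

theorem poly_smul (p : Polynomial ℂ) (g : ℕ → MvPolynomial ι ℂ) :
    (algebraMap _ KK p) • cl g = cl (fun k => p.eval (k : ℂ) • g k) := by
  change psi (algebraMap _ KK p) • cl g = _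
  rw [psi_algebraMap, psi0_apply]
  rfl

/-- the operator given by a sequence of operators -/
noncomputable def op : (ℕ → Module.End ℂ (MvPolynomial ι ℂ)) →+* Module.End KK (VG ι) where
  toFun T :=
    { toFun := fun v => Germ.map₂ (fun (A : Module.End ℂ (MvPolynomial ι ℂ)) x => A x)
        (T : Germ (atTop : Filter ℕ) (Module.End ℂ (MvPolynomial ι ℂ)))
        (v : Germ (atTop : Filter ℕ) (MvPolynomial ι ℂ))
      map_add' := by
        intro v w
        induction v using cl_ind with | h g => ?_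
        induction w using cl_ind with | h h => ?_
        change cl (fun k => T k (g k + h k)) = cl (fun k => T k (g k) + T k (h k))
        simp only [map_add]
      map_smul' := by
        intro c v
        induction v using cl_ind with | h g => ?_
        obtain ⟨c', hc'⟩ := smul_cl (ι := ι) c
        rw [hc']
        change cl (fun k => T k (c' k • g k)) = c • cl (fun k => T k (g k))
        rw [hc']
        simp only [map_smul] }
  map_one' := by
    apply LinearMap.ext
    intro v
    induction v using cl_ind with | h g => ?_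
    rfl
  map_mul' S T := by
    apply LinearMap.ext
    intro v
    induction v using cl_ind with | h g => ?_
    rfl
  map_zero' := by
    apply LinearMap.ext
    intro v
    induction v using cl_ind with | h g => ?_
    rfl
  map_add' S T := by
    apply LinearMap.ext
    intro v
    induction v using cl_ind with | h g => ?_
    rfl

theorem op_cl (T : ℕ → Module.End ℂ (MvPolynomial ι ℂ)) (g : ℕ → MvPolynomial ι ℂ) :
    op T (cl g) = cl (fun k => T k (g k)) := rfl

theorem smul_op (q : Polynomial ℂ) (T : ℕ → Module.End ℂ (MvPolynomial ι ℂ)) :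
    algebraMap _ KK q • op T = op (fun k => q.eval (k : ℂ) • T k) := by
  apply LinearMap.ext
  intro v
  induction v using cl_ind with | h g => ?_
  rw [LinearMap.smul_apply, op_cl, poly_smul, op_cl]
  rfl

/-! ### the Weyl algebra acts -/

theorem pderiv_comm (i j : ι) (p : MvPolynomial ι ℂ) :
    pderiv i (pderiv j p) = pderiv j (pderiv i p) := by
  classical
  ext m
  rw [coeff_pderiv, coeff_pderiv, coeff_pderiv, coeff_pderiv]
  by_cases hij : i = j
  · subst hij
    rfl
  · rw [add_right_comm m (Finsupp.single i 1) (Finsupp.single j 1)]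
    simp only [Finsupp.add_apply, Finsupp.single_apply, if_neg hij, if_neg (Ne.symm hij), add_zero]
    ring

variable [DecidableEq ι]

/-- `∂_i` as a linear map -/
noncomputable def dd (i : ι) : Module.End ℂ (MvPolynomial ι ℂ) :=
  ((pderiv i : Derivation ℂ (MvPolynomial ι ℂ) (MvPolynomial ι ℂ)) :
    MvPolynomial ι ℂ →ₗ[ℂ] MvPolynomial ι ℂ)

omit [DecidableEq ι] in
theorem dd_apply (i : ι) (p : MvPolynomial ι ℂ) : dd i p = pderiv i p := rfl

omit [DecidableEq ι] in
theorem wG_XX (i j : ι) :
    op (fun _ => LinearMap.mulLeft ℂ (X i)) * op (fun _ => LinearMap.mulLeft ℂ (X j)) =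
    (op (fun _ => LinearMap.mulLeft ℂ (X j)) * op (fun _ => LinearMap.mulLeft ℂ (X i)) :
      Module.End KK (VG ι)) := by
  apply LinearMap.ext
  intro v
  induction v using cl_ind with | h g => ?_
  refine congrArg cl (funext fun k => ?_)
  change X i * (X j * g k) = X j * (X i * g k)
  ring

omit [DecidableEq ι] in
theorem wG_DD (i j : ι) :
    op (fun _ => dd i) * op (fun _ => dd j) =
    (op (fun _ => dd j) * op (fun _ => dd i) : Module.End KK (VG ι)) := by
  apply LinearMap.ext
  intro v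
  induction v using cl_ind with | h g => ?_
  refine congrArg cl (funext fun k => ?_)
  exact pderiv_comm i j (g k)

omit [DecidableEq ι] in
theorem pd1 (i : ι) (p : MvPolynomial ι ℂ) : pderiv i (X i * p) = X i * pderiv i p + p := by
  rw [Derivation.leibniz, pderiv_X_self, smul_eq_mul, smul_eq_mul, mul_one]

omit [DecidableEq ι] in
theorem pd2 {i j : ι} (hij : i ≠ j) (p : MvPolynomial ι ℂ) :
    pderiv i (X j * p) = X j * pderiv i p := by
  rw [Derivation.leibniz, pderiv_X_of_ne (Ne.symm hij), smul_zero, smul_eq_mul, add_zero]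

omit [DecidableEq ι] in
theorem DX_cl (i j : ι) (g : ℕ → MvPolynomial ι ℂ) :
    (op (fun _ => dd i) * op (fun _ => LinearMap.mulLeft ℂ (X j)) : Module.End KK (VG ι)) (cl g) =
    cl (fun k => pderiv i (X j * g k)) := by
  rfl

omit [DecidableEq ι] in
theorem XD_cl (i j : ι) (g : ℕ → MvPolynomial ι ℂ) :
    (op (fun _ => LinearMap.mulLeft ℂ (X j)) * op (fun _ => dd i)  : Module.End KK (VG ι)) (cl g) =
    cl (fun k => X j * pderiv i (g k)) := by
  rfl

omit [DecidableEq ι] in
theorem XD1_cl (i : ι) (g : ℕ → MvPolynomial ι ℂ) :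
    (op (fun _ => LinearMap.mulLeft ℂ (X i)) * op (fun _ => dd i) + 1 :
      Module.End KK (VG ι)) (cl g) =
    cl (fun k => X i * pderiv i (g k) + g k) := by
  rw [LinearMap.add_apply, Module.End.mul_apply, Module.End.one_apply, op_cl, op_cl, cl_add]
  rfl

omit [DecidableEq ι] in
theorem wG_DX_self (i : ι) :
    op (fun _ => dd i) * op (fun _ => LinearMap.mulLeft ℂ (X i)) =
    (op (fun _ => LinearMap.mulLeft ℂ (X i)) * op (fun _ => dd i) + 1 :
      Module.End KK (VG ι)) := by
  apply LinearMap.ext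
  intro v
  obtain ⟨g, rfl⟩ : ∃ g, v = cl g := by
    induction v using cl_ind with | h g => exact ⟨g, rfl⟩
  rw [DX_cl, XD1_cl]
  simp only [pd1]

omit [DecidableEq ι] in
theorem wG_DX_ne {i j : ι} (hij : i ≠ j) :
    op (fun _ => dd i) * op (fun _ => LinearMap.mulLeft ℂ (X j)) =
    (op (fun _ => LinearMap.mulLeft ℂ (X j)) * op (fun _ => dd i) :
      Module.End KK (VG ι)) := by
  apply LinearMap.ext
  intro v
  obtain ⟨g, rfl⟩ : ∃ g, v = cl g := by
    induction v using cl_ind with | h g => exact ⟨g, rfl⟩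
  rw [DX_cl, XD_cl]
  simp only [pd2 hij]

theorem wG_DX (i j : ι) :
    op (fun _ => dd i) * op (fun _ => LinearMap.mulLeft ℂ (X j)) =
    (op (fun _ => LinearMap.mulLeft ℂ (X j)) * op (fun _ => dd i) + if i = j then 1 else 0 :
      Module.End KK (VG ι)) := by
  by_cases hij : i = j
  · subst hij
    rw [if_pos rfl, wG_DX_self]
  · rw [if_neg hij, add_zero, wG_DX_ne hij]

/-- the Weyl algebra acts on germs -/
noncomputable def wG : WMod KK (VG ι) ι where
  X' i := op (fun _ => LinearMap.mulLeft ℂ (X i))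
  D' i := op (fun _ => dd i)
  XX i j := wG_XX i j
  DD i j := wG_DD i j
  DX i j := wG_DX i j

/-- constants -/
noncomputable def cK : ℂ →+* KK := (algebraMap (Polynomial ℂ) KK).comp Polynomial.C

omit [DecidableEq ι] in
theorem cK_smul (c : ℂ) (g : ℕ → MvPolynomial ι ℂ) : cK c • cl g = cl (fun k => c • g k) := by
  change algebraMap _ KK (Polynomial.C c) • cl g = _
  rw [poly_smul]
  simp only [Polynomial.eval_C]

theorem pX_map (f : MvPolynomial ι ℂ) :
    (wG (ι := ι)).pX (map cK f) = op (fun _ => LinearMap.mulLeft ℂ f) := by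
  induction f using MvPolynomial.induction_on with
  | C a =>
    apply LinearMap.ext
    intro v
    induction v using cl_ind with | h g => ?_
    rw [map_C, WMod.pX, liftC_C, op_cl]
    change cK a • cl g = _
    rw [cK_smul]
    simp only [LinearMap.mulLeft_apply, MvPolynomial.C_mul']
  | add p q hp hq =>
    rw [map_add, map_add, hp, hq, ← map_add]
    congr 1
    funext _
    apply LinearMap.ext
    intro x
    simp [add_mul]
  | mul_X p i hp =>
    rw [map_mul, map_X, map_mul, hp, WMod.pX_X]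
    change _ * op (fun _ => LinearMap.mulLeft ℂ (X i)) = _
    rw [← map_mul]
    congr 1
    funext _
    apply LinearMap.ext
    intro x
    simp [mul_assoc]

theorem pX_map_cl (f : MvPolynomial ι ℂ) (g : ℕ → MvPolynomial ι ℂ) :
    (wG (ι := ι)).pX (map cK f) (cl g) = cl (fun k => f * g k) := by
  rw [pX_map, op_cl]
  rfl

theorem D_cl (j : ι) (g : ℕ → MvPolynomial ι ℂ) :
    (wG (ι := ι)).D' j (cl g) = cl (fun k => pderiv j (g k)) := rfl

/-! ### representability of the operators -/

omit [DecidableEq ι] in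
theorem polyFam_poly (q : Polynomial ℂ) :
    (fun z : ℤ => q.eval (z : ℂ) • (1 : Module.End ℂ (MvPolynomial ι ℂ))) ∈ PolyFam ι := by
  induction q using Polynomial.induction_on' with
  | add p q hp hq =>
    have h : (fun z : ℤ => (p + q).eval (z : ℂ) • (1 : Module.End ℂ (MvPolynomial ι ℂ))) =
        (fun z : ℤ => p.eval (z : ℂ) • (1 : Module.End ℂ (MvPolynomial ι ℂ))) +
        (fun z : ℤ => q.eval (z : ℂ) • (1 : Module.End ℂ (MvPolynomial ι ℂ))) := by
      funext z
      rw [Pi.add_apply, Polynomial.eval_add, add_smul]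
    rw [h]
    exact add_mem hp hq
  | monomial n a =>
    have h : (fun z : ℤ => (Polynomial.monomial n a).eval (z : ℂ) •
        (1 : Module.End ℂ (MvPolynomial ι ℂ))) =
        a • (fun z : ℤ => (z : ℂ) • (1 : Module.End ℂ (MvPolynomial ι ℂ))) ^ n := by
      funext z
      rw [Pi.smul_apply, Pi.pow_apply, Polynomial.eval_monomial, smul_pow, one_pow, smul_smul]
    rw [h]
    exact Subalgebra.smul_mem _ (pow_mem polyFam_id n) _

/-- `b(s) T` is given by an element of `A_n[s]` -/
def Rep (T : Module.End KK (VG ι)) : Prop :=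
  ∃ b : Polynomial ℂ, b ≠ 0 ∧ ∃ A ∈ PolyFam ι,
    algebraMap _ KK b • T = op (fun k : ℕ => A (k : ℤ))

omit [DecidableEq ι] in
theorem polyFam_smul (q : Polynomial ℂ) {A : ℤ → Module.End ℂ (MvPolynomial ι ℂ)}
    (hA : A ∈ PolyFam ι) : (fun z : ℤ => q.eval (z : ℂ) • A z) ∈ PolyFam ι := by
  have h : (fun z : ℤ => q.eval (z : ℂ) • A z) =
      (fun z : ℤ => q.eval (z : ℂ) • (1 : Module.End ℂ (MvPolynomial ι ℂ))) * A := by
    funext z
    rw [Pi.mul_apply, smul_mul_assoc, one_mul]
  rw [h]
  exact mul_mem (polyFam_poly q) hA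

omit [DecidableEq ι] in
theorem Rep.add {S T : Module.End KK (VG ι)} (hS : Rep S) (hT : Rep T) : Rep (S + T) := by
  obtain ⟨b, hb, A, hA, h1⟩ := hS
  obtain ⟨c, hc, B, hB, h2⟩ := hT
  refine ⟨b * c, mul_ne_zero hb hc, _, add_mem (polyFam_smul c hA) (polyFam_smul b hB), ?_⟩
  have h3 : algebraMap _ KK (b * c) • (S + T) =
      algebraMap _ KK c • (algebraMap _ KK b • S) + algebraMap _ KK b • (algebraMap _ KK c • T) := by
    rw [map_mul, smul_add, smul_smul, smul_smul, mul_comm (algebraMap _ KK c)]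
  rw [h3, h1, h2, smul_op, smul_op, ← map_add]
  congr 1

omit [DecidableEq ι] in
theorem Rep.mul {S T : Module.End KK (VG ι)} (hS : Rep S) (hT : Rep T) : Rep (S * T) := by
  obtain ⟨b, hb, A, hA, h1⟩ := hS
  obtain ⟨c, hc, B, hB, h2⟩ := hT
  refine ⟨b * c, mul_ne_zero hb hc, A * B, mul_mem hA hB, ?_⟩
  rw [map_mul, ← smul_mul_smul_comm, h1, h2, ← map_mul]
  congr 1

omit [DecidableEq ι] in
theorem Rep.smul {T : Module.End KK (VG ι)} (c : KK) (hT : Rep T) : Rep (c • T) := by
  obtain ⟨b, hb, A, hA, h1⟩ := hT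
  obtain ⟨p, q, hq, rfl⟩ := IsFractionRing.div_surjective (A := Polynomial ℂ) c
  have hq0 : q ≠ 0 := nonZeroDivisors.ne_zero hq
  have hq1 : algebraMap (Polynomial ℂ) KK q ≠ 0 := by
    rwa [Ne, FaithfulSMul.algebraMap_eq_zero_iff]
  refine ⟨b * q, mul_ne_zero hb hq0, _, polyFam_smul p hA, ?_⟩
  have h3 : algebraMap _ KK (b * q) • ((algebraMap _ KK p / algebraMap _ KK q) • T) =
      algebraMap _ KK p • (algebraMap _ KK b • T) := by
    rw [smul_smul, smul_smul, map_mul]
    congr 1
    field_simp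
  rw [h3, h1, smul_op]
  rfl

omit [DecidableEq ι] in
theorem Rep.of_mem {W : Module.End ℂ (MvPolynomial ι ℂ)} (hW : W ∈ Weyl ι) :
    Rep (op (fun _ => W)) := by
  refine ⟨1, one_ne_zero, _, polyFam_const hW, ?_⟩
  rw [map_one, one_smul]

omit [DecidableEq ι] in
theorem Rep.one : Rep (1 : Module.End KK (VG ι)) := by
  have h := Rep.of_mem (ι := ι) (one_mem (Weyl ι))
  have h2 : op (fun _ : ℕ => (1 : Module.End ℂ (MvPolynomial ι ℂ))) = 1 := by
    have : (fun _ : ℕ => (1 : Module.End ℂ (MvPolynomial ι ℂ))) = 1 := rfl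
    rw [this, map_one]
  rwa [h2] at h

theorem rep_pX (p : MvPolynomial ι KK) : Rep ((wG (ι := ι)).pX p) := by
  induction p using MvPolynomial.induction_on with
  | C a =>
    rw [WMod.pX, liftC_C, Algebra.algebraMap_eq_smul_one]
    exact Rep.one.smul a
  | add p q hp hq =>
    rw [map_add]
    exact hp.add hq
  | mul_X p i hp =>
    rw [map_mul, WMod.pX_X]
    exact hp.mul (Rep.of_mem (mulLeft_mem_Weyl _))

theorem rep_pD (p : MvPolynomial ι KK) : Rep ((wG (ι := ι)).pD p) := by
  induction p using MvPolynomial.induction_on with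
  | C a =>
    rw [WMod.pD, liftC_C, Algebra.algebraMap_eq_smul_one]
    exact Rep.one.smul a
  | add p q hp hq =>
    rw [map_add]
    exact hp.add hq
  | mul_X p i hp =>
    rw [map_mul, WMod.pD_X]
    exact hp.mul (Rep.of_mem (pderiv_mem_Weyl i))

theorem rep_Op (a : MvPolynomial (ι ⊕ ι) KK) : Rep ((wG (ι := ι)).Op a) := by
  induction a using WMod.ind with
  | h1 p q =>
    rw [WMod.Op_mul]
    exact (rep_pX p).mul (rep_pD q)
  | h2 a b ha hb =>
    rw [map_add]
    exact ha.add hb

end

end BP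
end Pool.Agent.Mono
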